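import Mathlib

/-!
# Hyperopic Cops and Robber on joins

For every finite non-empty graph `J` there is a finite connected graph `G` with
`c_H(G ∨ J) ≥ Υ(G ∨ J) + 1`.
-/

set_option autoImplicit false

namespace Pool.Agent.Results.MP_bed60c_co.EveryJoinPartner

open Finset

/-- The join of two graphs. -/
def join {V W : Type} (G : SimpleGraph V) (J : SimpleGraph W) : SimpleGraph (V ⊕ W) where
  Adj x y :=
    match x, y with
    | Sum.inl a, Sum.inl b => G.Adj a b
    | Sum.inr a, Sum.inr b => J.Adj a b
    | Sum.inl _, Sum.inr _ => True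
    | Sum.inr _, Sum.inl _ => True
  symm := by
    constructor
    rintro (a | a) (b | b) h
    · exact SimpleGraph.Adj.symm h
    · trivial
    · trivial
    · exact SimpleGraph.Adj.symm h
  loopless := by
    constructor
    rintro (a | a) h
    · exact G.loopless.irrefl a h
    · exact J.loopless.irrefl a h

section defs

variable {X : Type} (H : SimpleGraph X)

/-- The common neighbours of the vertices of `S`. -/
def commonNbrs (S : Finset X) : Set X := {v | ∀ s ∈ S, H.Adj s v}

/-- The parameter `Υ`: the least size of a non-empty set `S` with at most `|S|` common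
neighbours. -/
noncomputable def upsilon : ℕ :=
  sInf {n | ∃ S : Finset X, S.Nonempty ∧ S.card = n ∧ (commonNbrs H S).ncard ≤ S.card}

variable {m : ℕ}

open Classical in
/-- What the cops at the vertices `c i` see of a robber at `v`: nothing if `v` is adjacent to the
vertex of every cop, and otherwise the vertex `v`. -/
noncomputable def obs (c : Fin m → X) (v : X) : Option X :=
  if ∀ i, H.Adj (c i) v then none else some v

/-- Everything the cops have seen, latest first, after the robber's `n`-th move, when they play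
by the rule `σ` and the robber is at `r n` after his `n`-th move.  The cops look once after each
move of theirs and once after each move of the robber. -/
noncomputable def hist (σ : List (Option X) → Fin m → X) (r : ℕ → X) : ℕ → List (Option X)
  | 0 => [obs H (σ []) (r 0)]
  | n + 1 => obs H (σ (hist σ r n)) (r (n + 1)) :: obs H (σ (hist σ r n)) (r n) :: hist σ r n

/-- The positions of the cops: `pos 0` is their initial choice, `pos (n + 1)` is their choice
after the robber's `n`-th move. -/
noncomputable def pos (σ : List (Option X) → Fin m → X) (r : ℕ → X) : ℕ → Fin m → X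
  | 0 => σ []
  | n + 1 => σ (hist H σ r n)

/-- The robber's moves are legal. -/
def RobberLegal (r : ℕ → X) : Prop := ∀ n, r (n + 1) = r n ∨ H.Adj (r n) (r (n + 1))

/-- The rule `σ` is a strategy for `m` cops which guarantees capture: its moves are legal, and in
every play some cop is on the robber's vertex after finitely many moves. -/
def Winning (σ : List (Option X) → Fin m → X) : Prop :=
  ∀ r : ℕ → X, RobberLegal H r →
    (∀ n i, pos H σ r (n + 1) i = pos H σ r n i ∨ H.Adj (pos H σ r n i) (pos H σ r (n + 1) i)) ∧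
    ∃ n i, pos H σ r n i = r n ∨ pos H σ r (n + 1) i = r n

/-- The hyperopic cop number. -/
noncomputable def hyperopicCopNumber : ℕ :=
  sInf {m | ∃ σ : List (Option X) → Fin m → X, Winning H σ}

end defs

section graph

variable (k : ℕ)

/-- the main part of the vertices of our graph: part, colour, index -/
abbrev Q (k : ℕ) : Type := Fin (k + 2) × Option (Fin k) × Fin (k + 1)

/-- The graph `G`: `k` independent vertices, and a complete multipartite graph with `k + 2`
parts; a vertex of colour `some j` is adjacent to all the `k` vertices but the `j`-th, a vertex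
of colour `none` to none of them. -/
def GG : SimpleGraph (Fin k ⊕ Q k) where
  Adj x y :=
    match x, y with
    | Sum.inl _, Sum.inl _ => False
    | Sum.inr a, Sum.inr b => a.1 ≠ b.1
    | Sum.inl i, Sum.inr b => ∃ j, b.2.1 = some j ∧ j ≠ i
    | Sum.inr a, Sum.inl i => ∃ j, a.2.1 = some j ∧ j ≠ i
  symm := by
    constructor
    rintro (a | a) (b | b) h
    · exact h
    · exact h
    · exact h
    · exact fun h' => h h'.symm
  loopless := by
    constructor
    rintro (a | a) h
    · exact h
    · exact h rfl

theorem GG_connected (hk : 2 ≤ k) : (GG k).Connected := by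
  have h0 : ∀ x : Fin k ⊕ Q k, ∀ q : Q k, (GG k).Reachable x (Sum.inr q) := by
    have h1 : ∀ p q : Q k, (GG k).Reachable (Sum.inr p) (Sum.inr q) := by
      intro p q
      by_cases h : p.1 = q.1
      · obtain ⟨c, hc⟩ : ∃ c : Fin (k + 2), c ≠ p.1 := exists_ne _
        have e1 : (GG k).Adj (Sum.inr p) (Sum.inr (c, p.2)) := fun h' => hc h'.symm
        have e2 : (GG k).Adj (Sum.inr (c, p.2)) (Sum.inr q) := fun h' => hc (h'.trans h.symm)
        exact e1.reachable.trans e2.reachable
      · have e1 : (GG k).Adj (Sum.inr p) (Sum.inr q) := h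
        exact e1.reachable
    rintro (i | p) q
    · have : Nontrivial (Fin k) := Fin.nontrivial_iff_two_le.2 hk
      obtain ⟨j, hj⟩ : ∃ j : Fin k, j ≠ i := exists_ne i
      have e1 : (GG k).Adj (Sum.inl i) (Sum.inr (0, some j, 0)) := ⟨j, rfl, hj⟩
      exact e1.reachable.trans (h1 _ _)
    · exact h1 p q
  have : Nonempty (Fin k ⊕ Q k) := ⟨Sum.inr (0, none, 0)⟩
  refine ⟨fun x y => ?_⟩
  exact (h0 x (0, none, 0)).trans (h0 y (0, none, 0)).symm

variable {W : Type} (J : SimpleGraph W)

/-- A vertex of the main part is adjacent to everything which avoids its part and the vertex of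
its colour. -/
theorem adj_main {j : Fin k} {q : Q k} (hq : q.2.1 = some j) {s : (Fin k ⊕ Q k) ⊕ W}
    (h1 : s ≠ Sum.inl (Sum.inl j)) (h2 : ∀ p, s = Sum.inl (Sum.inr p) → p.1 ≠ q.1) :
    (join (GG k) J).Adj s (Sum.inl (Sum.inr q)) := by
  rcases s with (i | p) | w
  · exact ⟨j, hq, fun h => h1 (by rw [h])⟩
  · exact h2 p rfl
  · trivial

/-- the set of the `k` special vertices -/
def special : Finset ((Fin k ⊕ Q k) ⊕ W) :=
  (univ : Finset (Fin k)).map ⟨fun i => Sum.inl (Sum.inl i), fun _ _ h => by simpa using h⟩

theorem mem_special (i : Fin k) : (Sum.inl (Sum.inl i) : (Fin k ⊕ Q k) ⊕ W) ∈ special k :=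
  mem_map.2 ⟨i, mem_univ _, rfl⟩

theorem card_special : (special k : Finset ((Fin k ⊕ Q k) ⊕ W)).card = k := by
  rw [special, card_map, card_univ, Fintype.card_fin]

/-- the parts which are met by the cops or by the vertex of the robber are not all parts -/
theorem exists_part {m : ℕ} (hm : m ≤ k) (c : Fin m → (Fin k ⊕ Q k) ⊕ W) (u : Q k) :
    ∃ p : Fin (k + 2), u.1 ≠ p ∧ ∀ i q, c i = Sum.inl (Sum.inr q) → q.1 ≠ p := by
  classical
  let f : (Fin k ⊕ Q k) ⊕ W → Fin (k + 2) := fun s =>
    Sum.elim (Sum.elim (fun _ => u.1) (fun q => q.1)) (fun _ => u.1) s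
  let T : Finset (Fin (k + 2)) := insert u.1 (univ.image fun i => f (c i))
  have hT : T.card < Fintype.card (Fin (k + 2)) := by
    have h1 : (univ.image fun i => f (c i)).card ≤ m := by
      refine card_image_le.trans ?_
      rw [card_univ, Fintype.card_fin]
    have h2 := card_insert_le u.1 (univ.image fun i => f (c i))
    rw [Fintype.card_fin]
    change (insert u.1 (univ.image fun i => f (c i))).card < k + 2
    omega
  obtain ⟨p, hp⟩ : ∃ p, p ∉ T := by
    by_contra h
    push Not at h
    rw [← card_univ, (eq_univ_iff_forall.2 h)] at hT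
    exact lt_irrefl _ hT
  refine ⟨p, fun h => hp (h ▸ mem_insert_self _ _), fun i q hq h => hp ?_⟩
  rw [← h]
  refine mem_insert_of_mem (mem_image.2 ⟨i, mem_univ _, ?_⟩)
  rw [hq]
  rfl

/-- The robber always has a good answer. -/
theorem answer {m : ℕ} (hm : m ≤ k) (σ : List (Option ((Fin k ⊕ Q k) ⊕ W)) →
      Fin m → (Fin k ⊕ Q k) ⊕ W)
    (h : List (Option ((Fin k ⊕ Q k) ⊕ W))) (c : Fin m → (Fin k ⊕ Q k) ⊕ W) (u : Q k) :
    ∃ v : Q k, u.1 ≠ v.1 ∧ (∀ i, c i ≠ Sum.inl (Sum.inr v)) ∧
      ∀ i, (σ (obs (join (GG k) J) c (Sum.inl (Sum.inr v)) :: h) i = c i ∨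
        (join (GG k) J).Adj (c i) (σ (obs (join (GG k) J) c (Sum.inl (Sum.inr v)) :: h) i)) →
        σ (obs (join (GG k) J) c (Sum.inl (Sum.inr v)) :: h) i ≠ Sum.inl (Sum.inr v) := by
  classical
  obtain ⟨p, hp1, hp2⟩ := exists_part k hm c u
  by_cases hc : ∃ j : Fin k, ∀ i, c i ≠ Sum.inl (Sum.inl j)
  · -- some special vertex is free: the robber hides in one of `k + 1` vertices
    obtain ⟨j, hj⟩ := hc
    have hadj : ∀ (t : Fin (k + 1)) (i : Fin m),
        (join (GG k) J).Adj (c i) (Sum.inl (Sum.inr (p, some j, t))) := fun t i =>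
      adj_main k J rfl (hj i) (fun q hq => hp2 i q hq)
    have hobs : ∀ t : Fin (k + 1), obs (join (GG k) J) c (Sum.inl (Sum.inr (p, some j, t))) =
        none := fun t => if_pos (hadj t)
    obtain ⟨t, ht⟩ : ∃ t : Fin (k + 1), ∀ i, σ (none :: h) i ≠ Sum.inl (Sum.inr (p, some j, t)) := by
      by_contra hcon
      push Not at hcon
      choose g hg using hcon
      have hinj : Function.Injective g := by
        intro t t' htt
        have h1 := hg t
        rw [htt, hg t'] at h1
        simp only [Sum.inl.injEq, Sum.inr.injEq, Prod.mk.injEq, true_and] at h1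
        exact h1.symm
      have h2 := Fintype.card_le_of_injective g hinj
      rw [Fintype.card_fin, Fintype.card_fin] at h2
      omega
    refine ⟨(p, some j, t), hp1, fun i hi => ?_, fun i _ => ?_⟩
    · have h1 := hadj t i
      rw [hi] at h1
      exact (join (GG k) J).loopless.irrefl _ h1
    · rw [hobs]
      exact ht i
  · -- all special vertices are occupied
    push Not at hc
    have hall : ∀ i, ∃ j : Fin k, c i = Sum.inl (Sum.inl j) := by
      choose g hg using hc
      have hinj : Function.Injective g := by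
        intro t t' htt
        have h1 := hg t
        rw [htt, hg t'] at h1
        simpa using h1.symm
      have hsurj : Function.Surjective g := by
        have h2 := Fintype.card_le_of_injective g hinj
        rw [Fintype.card_fin, Fintype.card_fin] at h2
        exact ((Fintype.bijective_iff_injective_and_card g).2 ⟨hinj, by
          rw [Fintype.card_fin, Fintype.card_fin]; omega⟩).2
      intro i
      obtain ⟨j, rfl⟩ := hsurj i
      exact ⟨j, hg j⟩
    refine ⟨(p, none, 0), hp1, fun i hi => ?_, fun i hi heq => ?_⟩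
    · obtain ⟨j, hj⟩ := hall i
      rw [hj] at hi
      simp at hi
    · obtain ⟨j, hj⟩ := hall i
      rw [heq, hj] at hi
      rcases hi with hi | hi
      · simp at hi
      · obtain ⟨j', h1, _⟩ := hi
        exact absurd h1 (by simp)

/-- `m ≤ k` cops do not win. -/
theorem not_winning {m : ℕ} (hm : m ≤ k) (σ : List (Option ((Fin k ⊕ Q k) ⊕ W)) →
      Fin m → (Fin k ⊕ Q k) ⊕ W) : ¬ Winning (join (GG k) J) σ := by
  intro hw
  choose nxt hn1 hn2 hn3 using answer k J hm σ
  let q0 : Q k := (0, none, 0)
  -- the play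
  let st : ℕ → List (Option ((Fin k ⊕ Q k) ⊕ W)) × Q k := fun n => Nat.rec
    ([obs (join (GG k) J) (σ []) (Sum.inl (Sum.inr (nxt [] (σ []) q0)))], nxt [] (σ []) q0)
    (fun _ s => (obs (join (GG k) J) (σ s.1) (Sum.inl (Sum.inr
      (nxt (obs (join (GG k) J) (σ s.1) (Sum.inl (Sum.inr s.2)) :: s.1) (σ s.1) s.2))) ::
      obs (join (GG k) J) (σ s.1) (Sum.inl (Sum.inr s.2)) :: s.1,
      nxt (obs (join (GG k) J) (σ s.1) (Sum.inl (Sum.inr s.2)) :: s.1) (σ s.1) s.2)) n
  let r : ℕ → (Fin k ⊕ Q k) ⊕ W := fun n => Sum.inl (Sum.inr (st n).2)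
  have hhist : ∀ n, hist (join (GG k) J) σ r n = (st n).1 := by
    intro n
    induction n with
    | zero => rfl
    | succ n ih =>
      rw [hist, ih]
  have hleg : RobberLegal (join (GG k) J) r := by
    intro n
    right
    change (st n).2.1 ≠ (st (n + 1)).2.1
    exact hn1 _ (σ (st n).1) (st n).2
  obtain ⟨hcop, n, i, hni⟩ := hw r hleg
  have hfree : ∀ n i, pos (join (GG k) J) σ r n i ≠ r n := by
    intro n i
    rcases n with _ | n
    · exact hn2 [] (σ []) q0 i
    · rw [pos, hhist]
      exact hn2 _ (σ (st n).1) (st n).2 i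
  rcases hni with hni | hni
  · exact hfree n i hni
  · have h1 := hcop n i
    rcases n with _ | n
    · refine hn3 [] (σ []) q0 i ?_ hni
      exact h1
    · have h2 : pos (join (GG k) J) σ r (n + 1 + 1) = σ (st (n + 1)).1 := by
        rw [pos, hhist]
      have h3 : pos (join (GG k) J) σ r (n + 1) = σ (st n).1 := by
        rw [pos, hhist]
      rw [h2, h3] at h1
      rw [h2] at hni
      exact hn3 _ (σ (st n).1) (st n).2 i h1 hni

end graph

/-- As many cops as there are vertices win. -/
theorem winning_all {X : Type} [Fintype X] (H : SimpleGraph X) :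
    ∃ σ : List (Option X) → Fin (Fintype.card X) → X, Winning H σ := by
  refine ⟨fun _ i => (Fintype.equivFin X).symm i, fun r _ => ⟨fun n i => Or.inl ?_, 0,
    Fintype.equivFin X (r 0), Or.inl ?_⟩⟩
  · rcases n with _ | n <;> rfl
  · exact (Fintype.equivFin X).symm_apply_apply (r 0)

theorem lt_hyperopic {X : Type} [Fintype X] (H : SimpleGraph X) (k : ℕ)
    (h : ∀ m ≤ k, ∀ σ : List (Option X) → Fin m → X, ¬ Winning H σ) :
    k + 1 ≤ hyperopicCopNumber H := by
  have hne : {m | ∃ σ : List (Option X) → Fin m → X, Winning H σ}.Nonempty :=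
    ⟨_, winning_all H⟩
  obtain ⟨σ, hσ⟩ := Nat.sInf_mem hne
  by_contra hcon
  push Not at hcon
  exact h _ (Nat.lt_succ_iff.1 hcon) σ hσ

theorem upsilon_eq {W : Type} [Fintype W] (J : SimpleGraph W) {k : ℕ} (hk : 1 ≤ k)
    (hW : Fintype.card W ≤ k) : upsilon (join (GG k) J) = k := by
  classical
  apply le_antisymm
  · apply Nat.sInf_le
    refine ⟨special k, ⟨_, mem_special k ⟨0, hk⟩⟩, card_special k, ?_⟩
    rw [card_special]
    refine le_trans ?_ hW
    have hsub : commonNbrs (join (GG k) J) (special k) ⊆ Set.range Sum.inr := by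
      rintro ((i | q) | w) hx
      · exact absurd (hx _ (mem_special k i)) (fun h => h)
      · obtain ⟨j, hj, -⟩ := hx _ (mem_special k ⟨0, hk⟩)
        obtain ⟨j', hj', hne⟩ := hx _ (mem_special k j)
        rw [hj] at hj'
        exact absurd (Option.some.inj hj').symm hne
      · exact ⟨w, rfl⟩
    refine (Set.ncard_le_ncard hsub (Set.finite_range _)).trans ?_
    rw [← Set.image_univ, Set.ncard_image_of_injective _ Sum.inr_injective, Set.ncard_univ,
      Nat.card_eq_fintype_card]
  · apply le_csInf
    · refine ⟨_, (univ : Finset ((Fin k ⊕ Q k) ⊕ W)), ⟨Sum.inl (Sum.inl ⟨0, hk⟩), mem_univ _⟩, rfl, ?_⟩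
      rw [← Set.ncard_coe_finset]
      exact Set.ncard_le_ncard (fun x _ => mem_univ x) (Set.toFinite _)
    · rintro n ⟨S, hS, rfl, hcard⟩
      by_contra hlt
      push Not at hlt
      -- a special vertex outside of `S`
      obtain ⟨j, hj⟩ : ∃ j : Fin k, (Sum.inl (Sum.inl j) : (Fin k ⊕ Q k) ⊕ W) ∉ S := by
        by_contra hcon
        push Not at hcon
        have h1 : special k ⊆ S := by
          intro x hx
          obtain ⟨j, -, rfl⟩ := mem_map.1 hx
          exact hcon j
        have h2 := card_le_card h1
        rw [card_special] at h2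
        omega
      let c : Fin S.card → (Fin k ⊕ Q k) ⊕ W := fun i => (S.equivFin.symm i : _)
      obtain ⟨p, -, hp⟩ := exists_part k hlt.le c (0, none, 0)
      have hsub : (univ : Finset (Fin (k + 1))).image
          (fun t => (Sum.inl (Sum.inr (p, some j, t)) : (Fin k ⊕ Q k) ⊕ W)) ⊆
          (Set.toFinite (commonNbrs (join (GG k) J) S)).toFinset := by
        intro x hx
        obtain ⟨t, -, rfl⟩ := mem_image.1 hx
        rw [Set.Finite.mem_toFinset]
        intro s hs
        refine adj_main k J rfl (fun h => hj (h ▸ hs)) (fun q hq => ?_)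
        refine hp (S.equivFin ⟨s, hs⟩) q ?_
        change ((S.equivFin.symm (S.equivFin ⟨s, hs⟩) : S) : (Fin k ⊕ Q k) ⊕ W) = _
        rw [Equiv.symm_apply_apply]
        exact hq
      have h1 := card_le_card hsub
      rw [card_image_of_injective _ (fun t t' h => by simpa using h), card_univ, Fintype.card_fin,
        ← Set.ncard_eq_toFinset_card] at h1
      omega

/-- **Q1 is false, with any prescribed second graph: for every finite non-empty graph `J` there
is a finite connected graph `G` with `c_H(G ∨ J) ≥ Υ(G ∨ J) + 1`, where `Υ(G ∨ J)` may be any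
number `k ≥ 2` which is at least the number of vertices of `J`.** -/
theorem result {W : Type} [Fintype W] (J : SimpleGraph W) (k : ℕ) (hk : 2 ≤ k)
    (hW : Fintype.card W ≤ k) :
    ∃ (V : Type) (_ : Fintype V) (G : SimpleGraph V), G.Connected ∧
      upsilon (join G J) = k ∧ upsilon (join G J) + 1 ≤ hyperopicCopNumber (join G J) := by
  refine ⟨Fin k ⊕ Q k, inferInstance, GG k, GG_connected k hk, upsilon_eq J (by omega) hW, ?_⟩
  rw [upsilon_eq J (by omega) hW]
  exact lt_hyperopic _ k fun m hm σ => not_winning k J hm σ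

end Pool.Agent.Results.MP_bed60c_co.EveryJoinPartner
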